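import Pool.Agent.Work.MP_c48b3b_lc.Borel

/-!
# MP_c48b3b_lc, Q1: full positive answer

For every distance set `A` of a Polish metric space, isometry on the closed subspaces of the
Urysohn space with distances in `A` and isometry on those with distance set exactly `A` are Borel
bireducible.

Proof. Let `a` be a suitable nonzero element of `A` and call two points of a space equivalent if
they are joined by a chain of steps `< a`. A gadget is a Polish space `Z` with distance set `A`,
with two points `z0`, `z1` at distance `a`, all other points being more than `a` away from them,
and such that any two other points at distance exactly `a` are equivalent. To `X` we associate
`M(X) = X x Z` with the distance `max (d x x') (d z z')` if `x`, `x'` are equivalent and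
`max (d x x') (d z0 z) (d z0 z')` otherwise. It is Polish because there are only countably many
classes, its distance set is `A`, the points of `X x {z0, z1}` are those having a non-equivalent
point at distance at most `a`, and the two-point factor can be cancelled (a 2-regular bipartite
graph on the classes has a perfect matching). `M(X)` is realised as a closed subset of
`U x (N x Z)` through canonical labels of the classes, which makes `X` to `M(X)` Borel.
The gadget exists: by hand if `A` is countable; if `A` is uncountable, because in a given separable
space only countably many `a` are distances of points not joined by chains of steps `< a`.
-/

namespace Pool.Agent.Results.MP_c48b3b_lc.FullAnswer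

open PolishDist

theorem result : ∀ (U : Type) [MetricSpace U], IsUrysohn U → ∀ A : Set ℝ, IsPolishDistSet A →
    BorelBireducible (isoRel (VSub U A)) (isoRel (VEq U A)) := by
  intro U _ hU A hA
  have := hU.complete
  have := hU.separable
  exact main U hU.universal A hA

end Pool.Agent.Results.MP_c48b3b_lc.FullAnswer
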